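import Mathlib

/-!
Disproof of: an effective equivariant h*-polynomial evaluates at 1 to a permutation character (MP_769135_co,
frozen statement S09572), project H972-ST.

`G = QuaternionGroup 2` acts on `ℤ^8`.  For `x : Fin 8 → ℤ` put `n₁ = x 0, n₂ = x 1, n₃ = x 2, n₄ = x 3`
and `y₁ .. y₄` as below.  The polytope is `InR 1 x`.
-/

set_option autoImplicit false
open Pointwise

namespace Pool.Agent.H972ST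

def y1 (x : Fin 8 → ℤ) : ℤ := x 4 + x 0 + x 1
def y2 (x : Fin 8 → ℤ) : ℤ := x 4 + 2 * x 5 + x 1
def y3 (x : Fin 8 → ℤ) : ℤ := x 4 + 2 * x 6 + x 0
def y4 (x : Fin 8 → ℤ) : ℤ := x 4 + 2 * x 7

def r1 (x : Fin 8 → ℝ) : ℝ := x 4 + x 0 + x 1
def r2 (x : Fin 8 → ℝ) : ℝ := x 4 + 2 * x 5 + x 1
def r3 (x : Fin 8 → ℝ) : ℝ := x 4 + 2 * x 6 + x 0
def r4 (x : Fin 8 → ℝ) : ℝ := x 4 + 2 * x 7

/-- the norm of the lattice point `x` is at most `m` -/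
def InZ (m : ℤ) (x : Fin 8 → ℤ) : Prop :=
  |x 0| + |x 1| + |x 2| + |x 3| ≤ m ∧
  |y1 x| + |y4 x| + |x 2| + |x 3| ≤ m ∧
  |y2 x| + |y3 x| + |x 2| + |x 3| ≤ m ∧
  |x 0| + |y1 x| + |y2 x| + 2 * (|x 2| + |x 3|) ≤ 2 * m ∧
  |x 0| + |y3 x| + |y4 x| + 2 * (|x 2| + |x 3|) ≤ 2 * m ∧
  |x 1| + |y1 x| + |y3 x| + 2 * (|x 2| + |x 3|) ≤ 2 * m ∧
  |x 1| + |y2 x| + |y4 x| + 2 * (|x 2| + |x 3|) ≤ 2 * m

/-- the norm of the real point `x` is at most `m` -/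
def InR (m : ℝ) (x : Fin 8 → ℝ) : Prop :=
  |x 0| + |x 1| + |x 2| + |x 3| ≤ m ∧
  |r1 x| + |r4 x| + |x 2| + |x 3| ≤ m ∧
  |r2 x| + |r3 x| + |x 2| + |x 3| ≤ m ∧
  |x 0| + |r1 x| + |r2 x| + 2 * (|x 2| + |x 3|) ≤ 2 * m ∧
  |x 0| + |r3 x| + |r4 x| + 2 * (|x 2| + |x 3|) ≤ 2 * m ∧
  |x 1| + |r1 x| + |r3 x| + 2 * (|x 2| + |x 3|) ≤ 2 * m ∧
  |x 1| + |r2 x| + |r4 x| + 2 * (|x 2| + |x 3|) ≤ 2 * m

open Classical in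
/-- the lattice points of norm at most 1 -/
noncomputable def S : Finset (Fin 8 → ℤ) :=
  (Fintype.piFinset fun _ : Fin 8 => Finset.Icc (-2 : ℤ) 2).filter (InZ 1)

/-- the polytope -/
def P : Set (Fin 8 → ℝ) :=
  convexHull ℝ ((fun x : Fin 8 → ℤ => fun k => (x k : ℝ)) '' (S : Set (Fin 8 → ℤ)))

/-! ### the group action -/

def MI : Matrix (Fin 8) (Fin 8) ℤ :=
  !![ 1,  0,  0,  0,  0,  0,  0,  0;
      0,  1,  0,  0,  0,  0,  0,  0;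
      0,  0, -1,  0,  0,  0,  0,  0;
      0,  0,  0, -1,  0,  0,  0,  0;
     -1, -2,  0,  0, -1, -2,  0,  0;
      1,  1,  0,  0,  1,  1,  0,  0;
      0,  1,  0,  0,  0,  1,  0, -1;
      1,  1,  0,  0,  1,  1,  1,  0]

def MJ : Matrix (Fin 8) (Fin 8) ℤ :=
  !![-1,  0,  0,  0,  0,  0,  0,  0;
      0, -1,  0,  0,  0,  0,  0,  0;
      0,  0,  1,  0,  0,  0,  0,  0;
      0,  0,  0, -1,  0,  0,  0,  0;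
      0,  1,  0,  0, -1,  0, -2,  0;
      0,  0,  0,  0,  1,  0,  1,  1;
      1,  0,  0,  0,  1,  0,  1,  0;
      0, -1,  0,  0,  0, -1,  1,  0]

/-- the matrix of a group element: `a i ↦ MI ^ i`, `xa i ↦ MJ * MI ^ i` -/
def mat : QuaternionGroup 2 → Matrix (Fin 8) (Fin 8) ℤ
  | .a i => MI ^ (ZMod.val i)
  | .xa i => MJ * MI ^ (ZMod.val i)

/-- TASK RHO: there is an action with these matrices, and it preserves the norm. -/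
def TRho : Prop :=
  ∃ ρ : QuaternionGroup 2 →* ((Fin 8 → ℤ) ≃ᵃ[ℤ] (Fin 8 → ℤ)),
    (∀ g, ρ g 0 = 0) ∧
    (∀ g x, ρ g x = (mat g).mulVec x) ∧
    (∀ g x, (ρ g).linear x = (mat g).mulVec x) ∧
    (∀ g, LinearMap.toMatrix' ((ρ g).linear : (Fin 8 → ℤ) →ₗ[ℤ] (Fin 8 → ℤ)) = mat g) ∧
    (∀ g (m : ℤ) (x : Fin 8 → ℤ), InZ m x → InZ m (ρ g x))

/-- TASK COVER: fractional vertex covers of `K₄`. -/
def TCover : Prop :=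
  ∀ N w12 w13 w14 w23 w24 w34 : ℝ, 0 ≤ w12 → 0 ≤ w13 → 0 ≤ w14 → 0 ≤ w23 → 0 ≤ w24 → 0 ≤ w34 →
    w12 + w34 ≤ N → w13 + w24 ≤ N → w14 + w23 ≤ N →
    w12 + w13 + w23 ≤ 2 * N → w12 + w14 + w24 ≤ 2 * N → w13 + w14 + w34 ≤ 2 * N →
    w23 + w24 + w34 ≤ 2 * N →
    ∃ l1 l2 l3 l4 : ℝ, 0 ≤ l1 ∧ 0 ≤ l2 ∧ 0 ≤ l3 ∧ 0 ≤ l4 ∧ l1 + l2 + l3 + l4 ≤ N ∧
      w12 ≤ l1 + l2 ∧ w13 ≤ l1 + l3 ∧ w14 ≤ l1 + l4 ∧ w23 ≤ l2 + l3 ∧ w24 ≤ l2 + l4 ∧ w34 ≤ l3 + l4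

/-- TASK HULL -/
def THull : Prop := TCover → P = {x : Fin 8 → ℝ | InR 1 x}

/-- TASK MEM -/
def TMem : Prop := P = {x : Fin 8 → ℝ | InR 1 x} →
  (∀ (m : ℕ) (x : Fin 8 → ℤ), ((fun k => (x k : ℝ)) ∈ ((m : ℕ) : ℝ) • P ↔ InZ m x)) ∧
  (interior P).Nonempty

/-- the characteristic polynomials `(1-X) det(1 - X g)` -/
noncomputable def D : QuaternionGroup 2 → Polynomial ℤ
  | .a i => if i = 0 then (1 - Polynomial.X) ^ 9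
            else if i = 2 then (1 - Polynomial.X) ^ 5 * (1 + Polynomial.X) ^ 4
            else (1 - Polynomial.X) ^ 3 * (1 + Polynomial.X) ^ 2 * (1 + Polynomial.X ^ 2) ^ 2
  | .xa _ => (1 - Polynomial.X) ^ 2 * (1 + Polynomial.X) ^ 3 * (1 + Polynomial.X ^ 2) ^ 2

/-- TASK DET -/
def TDet : Prop := ∀ g : QuaternionGroup 2,
  (1 - Polynomial.X) * Matrix.det (1 - (Polynomial.X : Polynomial ℤ) • ((mat g).map Polynomial.C)) = D g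

/-! ### counting -/

/-- six coordinates `((n₁,n₂),(y₁,y₄),(y₂,y₃))` -/
abbrev T6 := (ℤ × ℤ) × (ℤ × ℤ) × (ℤ × ℤ)

noncomputable def Box (m : ℕ) : Finset T6 :=
  (Finset.Icc (-(m : ℤ)) m ×ˢ Finset.Icc (-(m : ℤ)) m) ×ˢ
  (Finset.Icc (-(m : ℤ)) m ×ˢ Finset.Icc (-(m : ℤ)) m) ×ˢ
  (Finset.Icc (-(m : ℤ)) m ×ˢ Finset.Icc (-(m : ℤ)) m)

def prs (m : ℕ) (z : T6) : Prop :=
  |z.1.1| + |z.1.2| ≤ m ∧ |z.2.1.1| + |z.2.1.2| ≤ m ∧ |z.2.2.1| + |z.2.2.2| ≤ m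

/-- parity conditions: the sums over the four triangles `n₁y₁y₂, n₁y₃y₄, n₂y₁y₃, n₂y₂y₄` are even -/
def par (z : T6) : Prop :=
  (z.1.1 + z.2.1.1 + z.2.2.1) % 2 = 0 ∧ (z.1.1 + z.2.2.2 + z.2.1.2) % 2 = 0 ∧
  (z.1.2 + z.2.1.1 + z.2.2.2) % 2 = 0 ∧ (z.1.2 + z.2.2.1 + z.2.1.2) % 2 = 0

def tri (m : ℕ) (z : T6) : Prop :=
  |z.1.1| + |z.2.1.1| + |z.2.2.1| ≤ 2 * m ∧ |z.1.1| + |z.2.2.2| + |z.2.1.2| ≤ 2 * m ∧
  |z.1.2| + |z.2.1.1| + |z.2.2.2| ≤ 2 * m ∧ |z.1.2| + |z.2.2.1| + |z.2.1.2| ≤ 2 * m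

open Classical in
noncomputable def Wset (m : ℕ) : Finset T6 := (Box m).filter fun z => prs m z ∧ par z

open Classical in
noncomputable def Gset (m : ℕ) : Finset T6 := (Box m).filter fun z => prs m z ∧ par z ∧ tri m z

open Classical in
noncomputable def Vset (m : ℕ) : Finset T6 :=
  (Box m).filter fun z => prs m z ∧ par z ∧ 2 * (m : ℤ) < |z.1.1| + |z.2.1.1| + |z.2.2.1|

/-- pairs with given parities -/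
noncomputable def Pr (m : ℕ) (a b : ℤ) : Finset (ℤ × ℤ) :=
  (Finset.Icc (-(m : ℤ)) m ×ˢ Finset.Icc (-(m : ℤ)) m).filter
    fun u => |u.1| + |u.2| ≤ (m : ℤ) ∧ u.1 % 2 = a ∧ u.2 % 2 = b

def E00 (m : ℕ) : ℕ := 2 * (m / 2) ^ 2 + 2 * (m / 2) + 1
def E01 (m : ℕ) : ℕ := 2 * ((m + 1) / 2) ^ 2
def E11 (m : ℕ) : ℕ := 2 * (m / 2) * (m / 2 + 1)

/-- TASK PAIR -/
def TPair : Prop := ∀ m : ℕ, (Pr m 0 0).card = E00 m ∧ (Pr m 0 1).card = E01 m ∧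
  (Pr m 1 0).card = E01 m ∧ (Pr m 1 1).card = E11 m

/-- TASK W -/
def TW : Prop := TPair → ∀ m : ℕ,
  (Wset m).card = E00 m ^ 3 + 4 * E01 m ^ 3 + 3 * E00 m * E11 m ^ 2

/-- TASK V (combinatorial part) -/
def TV : Prop := ∀ m : ℕ, (Vset m).card =
  8 * ∑ k ∈ (Finset.range (m - 1)).filter (fun k => k % 2 = m % 2),
    ((k + 5).choose 5 + (k + 2).choose 5)

/-- the Ehrhart polynomial of the six dimensional polytope -/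
noncomputable def L1q (m : ℚ) : ℚ :=
  1 + 77/15 * m + 779/90 * m ^ 2 + 8 * m ^ 3 + 115/18 * m ^ 4 + 43/15 * m ^ 5 + 43/45 * m ^ 6

/-- the Ehrhart polynomial of the eight dimensional polytope -/
noncomputable def LPq (m : ℚ) : ℚ :=
  1 + 473/105 * m + 5557/630 * m ^ 2 + 437/45 * m ^ 3 + 343/45 * m ^ 4 + 158/45 * m ^ 5 +
    67/45 * m ^ 6 + 86/315 * m ^ 7 + 43/630 * m ^ 8

/-- TASK ALG1 -/
def TAlg1 : Prop := ∀ m : ℕ,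
  L1q m + 4 * (8 * ∑ k ∈ (Finset.range (m - 1)).filter (fun k => k % 2 = m % 2),
    (((k + 5).choose 5 : ℚ) + ((k + 2).choose 5 : ℚ))) =
  (E00 m : ℚ) ^ 3 + 4 * (E01 m : ℚ) ^ 3 + 3 * (E00 m : ℚ) * (E11 m : ℚ) ^ 2

/-- TASK INCL (inclusion-exclusion: at most one triangle can be violated; symmetry) -/
def TIncl : Prop := ∀ m : ℕ, (Gset m).card + 4 * (Vset m).card = (Wset m).card

/-- TASK FIB (fibre over `(n₃,n₄)`) -/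
def TFib : Prop := ∀ m : ℕ, ({x : Fin 8 → ℤ | InZ m x}.ncard : ℕ) =
  ∑ a ∈ Finset.Icc (-(m : ℤ)) m, ∑ b ∈ Finset.Icc (-((m : ℤ) - |a|)) ((m : ℤ) - |a|),
    (Gset ((m : ℤ) - |a| - |b|).toNat).card

/-- TASK ALG2 -/
def TAlg2 : Prop := ∀ m : ℕ,
  ∑ a ∈ Finset.Icc (-(m : ℤ)) m, ∑ b ∈ Finset.Icc (-((m : ℤ) - |a|)) ((m : ℤ) - |a|),
    L1q ((((m : ℤ) - |a| - |b|).toNat : ℕ) : ℚ) = LPq m

/-- TASK FIXM: fixed lattice points of `-1 = a 2` -/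
def TFixM : Prop := ∀ m : ℕ,
  (({x : Fin 8 → ℤ | InZ m x ∧ (mat (.a 2)).mulVec x = x}.ncard : ℕ) : ℚ) =
    1 + 5/3 * (m : ℚ) + 11/6 * (m : ℚ) ^ 2 + 1/3 * (m : ℚ) ^ 3 + 1/6 * (m : ℚ) ^ 4

/-- TASK FIXI: fixed lattice points of `a 1` and `a 3` -/
def TFixI : Prop := ∀ m : ℕ,
  ({x : Fin 8 → ℤ | InZ m x ∧ (mat (.a 1)).mulVec x = x}.ncard = E00 m) ∧
  ({x : Fin 8 → ℤ | InZ m x ∧ (mat (.a 3)).mulVec x = x}.ncard = E00 m)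

/-- TASK FIXJ: fixed lattice points of `xa i` -/
def TFixJ : Prop := ∀ (m : ℕ) (i : ZMod (2 * 2)),
  {x : Fin 8 → ℤ | InZ m x ∧ (mat (.xa i)).mulVec x = x}.ncard = 2 * m + 1

/-! ### the h*-coefficients -/

def H1 (i : ℕ) : ℤ := ([1, 28, 208, 660, 958, 660, 208, 28, 1] : List ℤ).getD i 0
def HA (i : ℕ) : ℤ := ([1, 4, 8, 12, 14, 12, 8, 4, 1] : List ℤ).getD i 0
def HB (i : ℕ) : ℤ := ([1, 0, 4, 0, 6, 0, 4, 0, 1] : List ℤ).getD i 0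

def Hval (i : ℕ) : QuaternionGroup 2 → ℤ
  | .a k => if k = 0 then H1 i else if k = 2 then HA i else HB i
  | .xa _ => HA i

/-- TASK SER1 -/
def TSer1 : Prop := ∀ c : ℕ → ℤ, (∀ m, (c m : ℚ) = LPq m) → ∀ i : ℕ,
  ∑ j ∈ Finset.range (i + 1), Polynomial.coeff ((1 - Polynomial.X) ^ 9 : Polynomial ℤ) j * c (i - j) = H1 i

/-- TASK SER2 -/
def TSer2 : Prop := ∀ c : ℕ → ℤ,
  (∀ m : ℕ, (c m : ℚ) = 1 + 5/3 * (m : ℚ) + 11/6 * (m : ℚ) ^ 2 + 1/3 * (m : ℚ) ^ 3 + 1/6 * (m : ℚ) ^ 4) →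
  ∀ i : ℕ, ∑ j ∈ Finset.range (i + 1),
    Polynomial.coeff ((1 - Polynomial.X) ^ 5 * (1 + Polynomial.X) ^ 4 : Polynomial ℤ) j * c (i - j) = HA i

/-- TASK SER3 -/
def TSer3 : Prop := ∀ i : ℕ,
  (∑ j ∈ Finset.range (i + 1),
    Polynomial.coeff ((1 - Polynomial.X) ^ 3 * (1 + Polynomial.X) ^ 2 * (1 + Polynomial.X ^ 2) ^ 2 : Polynomial ℤ) j
      * (E00 (i - j) : ℤ) = HB i) ∧
  (∑ j ∈ Finset.range (i + 1),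
    Polynomial.coeff ((1 - Polynomial.X) ^ 2 * (1 + Polynomial.X) ^ 3 * (1 + Polynomial.X ^ 2) ^ 2 : Polynomial ℤ) j
      * (((2 * (i - j) + 1 : ℕ) : ℤ)) = HA i)

/-- TASK REP -/
def TRep : Prop := ∀ i : ℕ, ∃ V : FDRep ℂ (QuaternionGroup 2),
  ∀ g, V.character g = ((Hval i g : ℤ) : ℂ)

end Pool.Agent.H972ST
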