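import Pool.Agent.H972ST.Stmts

/-! Task TAlg2 of project H972-ST (helper128). -/

set_option autoImplicit false

namespace Pool.Agent.H972ST

namespace Alg2Aux

theorem sum_Icc_succ (g : ℤ → ℚ) (k : ℕ) :
    ∑ a ∈ Finset.Icc (-((k + 1 : ℕ) : ℤ)) ((k + 1 : ℕ) : ℤ), g a =
      ∑ a ∈ Finset.Icc (-(k : ℤ)) (k : ℤ), g a + g ((k : ℤ) + 1) + g (-((k : ℤ) + 1)) := by
  have h : Finset.Icc (-((k + 1 : ℕ) : ℤ)) ((k + 1 : ℕ) : ℤ) =
      insert (-((k : ℤ) + 1)) (insert ((k : ℤ) + 1) (Finset.Icc (-(k : ℤ)) (k : ℤ))) := by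
    ext x
    simp only [Finset.mem_insert, Finset.mem_Icc]
    push_cast
    omega
  rw [h, Finset.sum_insert, Finset.sum_insert]
  · ring
  · simp only [Finset.mem_Icc]; omega
  · simp only [Finset.mem_insert, Finset.mem_Icc]; omega

theorem sum_abs (f : ℕ → ℚ) (N k : ℕ) (hk : k ≤ N) :
    ∑ a ∈ Finset.Icc (-(k : ℤ)) (k : ℤ), f (((N : ℤ) - |a|).toNat) =
      f N + 2 * ∑ i ∈ Finset.range k, f (N - 1 - i) := by
  induction k with
  | zero => simp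
  | succ k ih =>
    rw [sum_Icc_succ, ih (by omega), Finset.sum_range_succ]
    have h1 : ((N : ℤ) - |(k : ℤ) + 1|).toNat = N - 1 - k := by
      rw [abs_of_nonneg (by positivity)]; omega
    have h2 : ((N : ℤ) - |-((k : ℤ) + 1)|).toNat = N - 1 - k := by
      rw [abs_neg, abs_of_nonneg (by positivity)]; omega
    rw [h1, h2]
    ring

theorem sum_abs' (f : ℕ → ℚ) (N : ℕ) :
    ∑ a ∈ Finset.Icc (-(N : ℤ)) (N : ℤ), f (((N : ℤ) - |a|).toNat) =
      f N + 2 * ∑ i ∈ Finset.range N, f i := by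
  rw [sum_abs f N N le_rfl, Finset.sum_range_reflect]

/-- closed form of the single sum -/
noncomputable def L7 (m : ℚ) : ℚ :=
  1 + 473/105 * m + 779/90 * m ^ 2 + 437/45 * m ^ 3 + 115/18 * m ^ 4 + 158/45 * m ^ 5 +
    43/45 * m ^ 6 + 86/315 * m ^ 7

theorem closed (f g : ℕ → ℚ) (h0 : f 0 = g 0) (hs : ∀ m, g (m + 1) = g m + f (m + 1) + f m)
    (N : ℕ) : f N + 2 * ∑ i ∈ Finset.range N, f i = g N := by
  induction N with
  | zero => simp [h0]
  | succ N ih =>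
    rw [Finset.sum_range_succ, hs, ← ih]
    ring

theorem one_sum (N : ℕ) :
    ∑ a ∈ Finset.Icc (-(N : ℤ)) (N : ℤ), L1q (((((N : ℤ) - |a|).toNat : ℕ)) : ℚ) = L7 N := by
  rw [sum_abs' (fun n => L1q (n : ℚ)) N]
  refine closed (fun n => L1q (n : ℚ)) (fun n => L7 (n : ℚ)) ?_ ?_ N
  · simp [L1q, L7]
  · intro m
    simp only [L1q, L7]
    push_cast
    ring

theorem two_sum (N : ℕ) :
    ∑ a ∈ Finset.Icc (-(N : ℤ)) (N : ℤ), L7 (((((N : ℤ) - |a|).toNat : ℕ)) : ℚ) = LPq N := by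
  rw [sum_abs' (fun n => L7 (n : ℚ)) N]
  refine closed (fun n => L7 (n : ℚ)) (fun n => LPq (n : ℚ)) ?_ ?_ N
  · simp [L7, LPq]
  · intro m
    simp only [L7, LPq]
    push_cast
    ring

end Alg2Aux

open Alg2Aux in
theorem tAlg2 : TAlg2 := by
  intro m
  rw [← two_sum m]
  refine Finset.sum_congr rfl fun a ha => ?_
  rw [Finset.mem_Icc] at ha
  have h1 : |a| ≤ (m : ℤ) := abs_le.mpr ha
  obtain ⟨n, hn⟩ := Int.eq_ofNat_of_zero_le (sub_nonneg.mpr h1)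
  rw [hn, Int.toNat_natCast, ← one_sum n]

end Pool.Agent.H972ST
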