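import Pool.Agent.H972ST.Stmts

set_option autoImplicit false
open Pointwise

namespace Pool.Agent.H972ST

lemma perm_contra (X : Type) [Finite X] [MulAction (QuaternionGroup 2) X]
    (h2 : Nat.card {x : X // (QuaternionGroup.a 2 : QuaternionGroup 2) • x = x} = 64)
    (h1 : Nat.card {x : X // (QuaternionGroup.a 1 : QuaternionGroup 2) • x = x} = 16)
    (hj : Nat.card {x : X // (QuaternionGroup.xa 0 : QuaternionGroup 2) • x = x} = 64)
    (hk : Nat.card {x : X // (QuaternionGroup.xa 1 : QuaternionGroup 2) • x = x} = 64) : False := by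
  set F : QuaternionGroup 2 → Set X := fun g => {x : X | g • x = x} with hF
  have c2 : (F (.a 2)).ncard = 64 := h2
  have c1 : (F (.a 1)).ncard = 16 := h1
  have cj : (F (.xa 0)).ncard = 64 := hj
  have ck : (F (.xa 1)).ncard = 64 := hk
  have ej : (QuaternionGroup.xa 0 : QuaternionGroup 2) * QuaternionGroup.xa 0 = QuaternionGroup.a 2 := by
    decide
  have ek : (QuaternionGroup.xa 1 : QuaternionGroup 2) * QuaternionGroup.xa 1 = QuaternionGroup.a 2 := by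
    decide
  have ei : (QuaternionGroup.xa 1 : QuaternionGroup 2) * QuaternionGroup.xa 0 = QuaternionGroup.a 1 := by
    decide
  have sj : F (.xa 0) ⊆ F (.a 2) := by
    intro x hx
    have hx' : (QuaternionGroup.xa 0 : QuaternionGroup 2) • x = x := hx
    show (QuaternionGroup.a 2 : QuaternionGroup 2) • x = x
    rw [← ej, mul_smul, hx', hx']
  have sk : F (.xa 1) ⊆ F (.a 2) := by
    intro x hx
    have hx' : (QuaternionGroup.xa 1 : QuaternionGroup 2) • x = x := hx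
    show (QuaternionGroup.a 2 : QuaternionGroup 2) • x = x
    rw [← ek, mul_smul, hx', hx']
  have si : F (.xa 0) ∩ F (.xa 1) ⊆ F (.a 1) := by
    rintro x ⟨hx, hy⟩
    have hx' : (QuaternionGroup.xa 0 : QuaternionGroup 2) • x = x := hx
    have hy' : (QuaternionGroup.xa 1 : QuaternionGroup 2) • x = x := hy
    show (QuaternionGroup.a 1 : QuaternionGroup 2) • x = x
    rw [← ei, mul_smul, hx', hy']
  have hun := Set.ncard_union_add_ncard_inter (F (.xa 0)) (F (.xa 1)) (Set.toFinite _) (Set.toFinite _)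
  have h3 : (F (.xa 0) ∪ F (.xa 1)).ncard ≤ (F (.a 2)).ncard :=
    Set.ncard_le_ncard (Set.union_subset sj sk) (Set.toFinite _)
  have h4 : (F (.xa 0) ∩ F (.xa 1)).ncard ≤ (F (.a 1)).ncard :=
    Set.ncard_le_ncard si (Set.toFinite _)
  omega

lemma mat_zero : mat (.a 0) = 1 := by
  show MI ^ (ZMod.val (0 : ZMod (2 * 2))) = 1
  rw [ZMod.val_zero, pow_zero]

lemma zmod_cases : ∀ k : ZMod (2 * 2), ¬ k = 0 → ¬ k = 2 → k = 1 ∨ k = 3 := by decide

lemma sum2 : ∑ i ∈ Finset.range 9, Hval i (.a 2) = 64 := by decide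
lemma sum1 : ∑ i ∈ Finset.range 9, Hval i (.a 1) = 16 := by decide
lemma sumj : ∑ i ∈ Finset.range 9, Hval i (.xa 0) = 64 := by decide
lemma sumk : ∑ i ∈ Finset.range 9, Hval i (.xa 1) = 64 := by decide

/-- the Ehrhart polynomial of the polytope -/
lemma count_one (tPair : TPair) (tW : TW) (tV : TV) (tAlg1 : TAlg1) (tIncl : TIncl) (tFib : TFib)
    (tAlg2 : TAlg2) (m : ℕ) : (({x : Fin 8 → ℤ | InZ m x}.ncard : ℕ) : ℚ) = LPq m := by
  have hG : ∀ k : ℕ, ((Gset k).card : ℚ) = L1q k := by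
    intro k
    have h1 := tIncl k
    have h2 := tW tPair k
    have h3 := tV k
    have h4 := tAlg1 k
    have h1' : ((Gset k).card : ℚ) + 4 * ((Vset k).card : ℚ) = ((Wset k).card : ℚ) := by
      exact_mod_cast h1
    have h3' : ((Vset k).card : ℚ) = 8 * ∑ j ∈ (Finset.range (k - 1)).filter (fun j => j % 2 = k % 2),
        (((j + 5).choose 5 : ℚ) + ((j + 2).choose 5 : ℚ)) := by
      rw [h3]; push_cast; rfl
    have h2' : ((Wset k).card : ℚ) =
        (E00 k : ℚ) ^ 3 + 4 * (E01 k : ℚ) ^ 3 + 3 * (E00 k : ℚ) * (E11 k : ℚ) ^ 2 := by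
      rw [h2]; push_cast; rfl
    rw [h2', ← h4, h3'] at h1'
    linarith
  rw [tFib m]
  push_cast
  rw [← tAlg2 m]
  refine Finset.sum_congr rfl fun a _ => Finset.sum_congr rfl fun b _ => ?_
  exact hG _

lemma caseA0 (hcount : ∀ m : ℕ, (({x : Fin 8 → ℤ | InZ m x}.ncard : ℕ) : ℚ) = LPq m) (tSer1 : TSer1)
    (i : ℕ) : ∑ j ∈ Finset.range (i + 1), Polynomial.coeff (D (.a 0)) j *
      (({x : Fin 8 → ℤ | InZ ((i - j : ℕ) : ℤ) x ∧ (mat (.a 0)).mulVec x = x}.ncard : ℕ) : ℤ) =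
      Hval i (.a 0) := by
  have hD : D (QuaternionGroup.a 0) = (1 - Polynomial.X) ^ 9 := by simp [D]
  have hH : Hval i (QuaternionGroup.a 0) = H1 i := by simp [Hval]
  have hs : ∀ m : ℕ, {x : Fin 8 → ℤ | InZ m x ∧ (mat (.a 0)).mulVec x = x} =
      {x : Fin 8 → ℤ | InZ m x} := by
    intro m
    ext x
    have hm1 : mat (.a 0) = 1 := mat_zero
    simp only [Set.mem_ofPred_eq, hm1, Matrix.one_mulVec, and_true]
  have h1 := tSer1 (fun m => (({x : Fin 8 → ℤ | InZ m x}.ncard : ℕ) : ℤ))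
    (fun m => by have := hcount m; simpa using this) i
  rw [hH, ← h1, hD]
  refine Finset.sum_congr rfl fun j _ => ?_
  rw [hs (i - j)]

lemma caseA2 (tFixM : TFixM) (tSer2 : TSer2)
    (i : ℕ) : ∑ j ∈ Finset.range (i + 1), Polynomial.coeff (D (.a 2)) j *
      (({x : Fin 8 → ℤ | InZ ((i - j : ℕ) : ℤ) x ∧ (mat (.a 2)).mulVec x = x}.ncard : ℕ) : ℤ) =
      Hval i (.a 2) := by
  have h20 : ¬ (2 : ZMod (2 * 2)) = 0 := by decide
  have hD : D (QuaternionGroup.a 2) = (1 - Polynomial.X) ^ 5 * (1 + Polynomial.X) ^ 4 := by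
    simp only [D, if_neg h20, if_true]
  have hH : Hval i (QuaternionGroup.a 2) = HA i := by
    simp only [Hval, if_neg h20, if_true]
  have h1 := tSer2 (fun m => (({x : Fin 8 → ℤ | InZ m x ∧ (mat (.a 2)).mulVec x = x}.ncard : ℕ) : ℤ))
    (fun m => by have := tFixM m; simpa using this) i
  rw [hH, ← h1, hD]

lemma caseA13 (tFixI : TFixI) (tSer3 : TSer3) (k : ZMod (2 * 2)) (hk0 : ¬ k = 0) (hk2 : ¬ k = 2)
    (i : ℕ) : ∑ j ∈ Finset.range (i + 1), Polynomial.coeff (D (.a k)) j *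
      (({x : Fin 8 → ℤ | InZ ((i - j : ℕ) : ℤ) x ∧ (mat (.a k)).mulVec x = x}.ncard : ℕ) : ℤ) =
      Hval i (.a k) := by
  have hD : D (QuaternionGroup.a k) =
      (1 - Polynomial.X) ^ 3 * (1 + Polynomial.X) ^ 2 * (1 + Polynomial.X ^ 2) ^ 2 := by
    simp only [D, if_neg hk0, if_neg hk2]
  have hH : Hval i (QuaternionGroup.a k) = HB i := by
    simp only [Hval, if_neg hk0, if_neg hk2]
  have hk : k = 1 ∨ k = 3 := zmod_cases k hk0 hk2
  rw [hH, ← (tSer3 i).1, hD]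
  refine Finset.sum_congr rfl fun j _ => ?_
  have hc : {x : Fin 8 → ℤ | InZ ((i - j : ℕ) : ℤ) x ∧ (mat (.a k)).mulVec x = x}.ncard = E00 (i - j) := by
    rcases hk with rfl | rfl
    · exact (tFixI (i - j)).1
    · exact (tFixI (i - j)).2
  rw [hc]

lemma caseX (tFixJ : TFixJ) (tSer3 : TSer3) (k : ZMod (2 * 2))
    (i : ℕ) : ∑ j ∈ Finset.range (i + 1), Polynomial.coeff (D (.xa k)) j *
      (({x : Fin 8 → ℤ | InZ ((i - j : ℕ) : ℤ) x ∧ (mat (.xa k)).mulVec x = x}.ncard : ℕ) : ℤ) =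
      Hval i (.xa k) := by
  have hD : D (QuaternionGroup.xa k) =
      (1 - Polynomial.X) ^ 2 * (1 + Polynomial.X) ^ 3 * (1 + Polynomial.X ^ 2) ^ 2 := by
    simp only [D]
  have hH : Hval i (QuaternionGroup.xa k) = HA i := by
    simp only [Hval]
  rw [hH, ← (tSer3 i).2, hD]
  refine Finset.sum_congr rfl fun j _ => ?_
  rw [tFixJ (i - j) k]

lemma caseAll (hcount : ∀ m : ℕ, (({x : Fin 8 → ℤ | InZ m x}.ncard : ℕ) : ℚ) = LPq m) (tSer1 : TSer1)
    (tFixM : TFixM) (tSer2 : TSer2) (tFixI : TFixI) (tSer3 : TSer3) (tFixJ : TFixJ)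
    (g : QuaternionGroup 2)
    (i : ℕ) : ∑ j ∈ Finset.range (i + 1), Polynomial.coeff (D g) j *
      (({x : Fin 8 → ℤ | InZ ((i - j : ℕ) : ℤ) x ∧ (mat g).mulVec x = x}.ncard : ℕ) : ℤ) =
      Hval i g := by
  rcases g with k | k
  · by_cases hk0 : k = 0
    · subst hk0
      exact caseA0 hcount tSer1 i
    · by_cases hk2 : k = 2
      · subst hk2
        exact caseA2 tFixM tSer2 i
      · exact caseA13 tFixI tSer3 k hk0 hk2 i
  · exact caseX tFixJ tSer3 k i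

lemma coeffD (tDet : TDet) (ρ : QuaternionGroup 2 →* ((Fin 8 → ℤ) ≃ᵃ[ℤ] (Fin 8 → ℤ)))
    (hρm : ∀ g, LinearMap.toMatrix' ((ρ g).linear : (Fin 8 → ℤ) →ₗ[ℤ] (Fin 8 → ℤ)) = mat g)
    (g : QuaternionGroup 2) (j : ℕ) : Polynomial.coeff ((1 - Polynomial.X) *
      Matrix.det (1 - (Polynomial.X : Polynomial ℤ) •
        ((LinearMap.toMatrix'
          ((ρ g).linear : (Fin 8 → ℤ) →ₗ[ℤ] (Fin 8 → ℤ))).map Polynomial.C))) j =
      Polynomial.coeff (D g) j := by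
  have h1 := hρm g
  have h2 := tDet g
  generalize LinearMap.toMatrix' ((ρ g).linear : (Fin 8 → ℤ) →ₗ[ℤ] (Fin 8 → ℤ)) = M at h1 ⊢
  subst h1
  rw [h2]

lemma formula (tDet : TDet) (ρ : QuaternionGroup 2 →* ((Fin 8 → ℤ) ≃ᵃ[ℤ] (Fin 8 → ℤ)))
    (hρm : ∀ g, LinearMap.toMatrix' ((ρ g).linear : (Fin 8 → ℤ) →ₗ[ℤ] (Fin 8 → ℤ)) = mat g)
    (hset : ∀ (g : QuaternionGroup 2) (m : ℕ),
      {x : Fin 8 → ℤ | (fun k => (x k : ℝ)) ∈ ((m : ℕ) : ℝ) • P ∧
        (ρ g).linear x + (m : ℕ) • (ρ g 0) = x} =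
      {x : Fin 8 → ℤ | InZ m x ∧ (mat g).mulVec x = x})
    (hcase : ∀ (g : QuaternionGroup 2) (i : ℕ),
      ∑ j ∈ Finset.range (i + 1), Polynomial.coeff (D g) j *
      (({x : Fin 8 → ℤ | InZ ((i - j : ℕ) : ℤ) x ∧ (mat g).mulVec x = x}.ncard : ℕ) : ℤ) =
      Hval i g) (i : ℕ) (g : QuaternionGroup 2) :
    Hval i g =
        ∑ j ∈ Finset.range (i + 1),
          Polynomial.coeff ((1 - Polynomial.X) *
              Matrix.det (1 - (Polynomial.X : Polynomial ℤ) •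
                ((LinearMap.toMatrix'
                  ((ρ g).linear : (Fin 8 → ℤ) →ₗ[ℤ] (Fin 8 → ℤ))).map Polynomial.C))) j *
            (({x : Fin 8 → ℤ | (fun k => (x k : ℝ)) ∈ ((i - j : ℕ) : ℝ) • P ∧
                (ρ g).linear x + (i - j : ℕ) • (ρ g 0) = x}.ncard : ℕ) : ℤ) := by
  rw [← hcase g i]
  refine Finset.sum_congr rfl fun j _ => ?_
  rw [hset g (i - j), coeffD tDet ρ hρm g j]

theorem main (tRho : TRho) (tCover : TCover) (tHull : THull) (tMem : TMem) (tDet : TDet)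
    (tPair : TPair) (tW : TW) (tV : TV) (tAlg1 : TAlg1) (tIncl : TIncl) (tFib : TFib) (tAlg2 : TAlg2)
    (tFixM : TFixM) (tFixI : TFixI) (tFixJ : TFixJ) (tSer1 : TSer1) (tSer2 : TSer2) (tSer3 : TSer3)
    (tRep : TRep) :
    ¬ (∀ (n : ℕ) (G : Type) [Group G] [Fintype G]
    (ρ : G →* ((Fin n → ℤ) ≃ᵃ[ℤ] (Fin n → ℤ)))
    (S : Finset (Fin n → ℤ)) (P : Set (Fin n → ℝ)),
    P = convexHull ℝ ((fun x : Fin n → ℤ => fun k => (x k : ℝ)) '' (S : Set (Fin n → ℤ))) →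
    (interior P).Nonempty →
    (∀ (g : G) (x : Fin n → ℤ), (fun k => (x k : ℝ)) ∈ P →
        (fun k => ((ρ g x) k : ℝ)) ∈ P) →
    ∀ (h : ℕ → G → ℤ),
    (∀ (i : ℕ) (g : G), h i g =
        ∑ j ∈ Finset.range (i + 1),
          Polynomial.coeff ((1 - Polynomial.X) *
              Matrix.det (1 - (Polynomial.X : Polynomial ℤ) •
                ((LinearMap.toMatrix'
                  ((ρ g).linear : (Fin n → ℤ) →ₗ[ℤ] (Fin n → ℤ))).map Polynomial.C))) j *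
            (({x : Fin n → ℤ | (fun k => (x k : ℝ)) ∈ ((i - j : ℕ) : ℝ) • P ∧
                (ρ g).linear x + (i - j : ℕ) • (ρ g 0) = x}.ncard : ℕ) : ℤ)) →
    (∀ i : ℕ, ∃ V : FDRep ℂ G, ∀ g : G, V.character g = ((h i g : ℤ) : ℂ)) →
    ∃ (X : Type) (_ : Finite X) (_ : MulAction G X), ∀ g : G,
      ∑ i ∈ Finset.range (n + 1), ((h i g : ℤ) : ℂ) =
        ((Nat.card {x : X // g • x = x} : ℕ) : ℂ)) := by
  intro hall
  obtain ⟨ρ, hρ0, hρ, hρl, hρm, hρN⟩ := tRho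
  have hP := tHull tCover
  obtain ⟨hmem, hint⟩ := tMem hP
  have hone : ∀ x : Fin 8 → ℤ, (fun k => (x k : ℝ)) ∈ P ↔ InZ 1 x := by
    intro x
    have := hmem 1 x
    simpa using this
  have hset : ∀ (g : QuaternionGroup 2) (m : ℕ),
      {x : Fin 8 → ℤ | (fun k => (x k : ℝ)) ∈ ((m : ℕ) : ℝ) • P ∧
        (ρ g).linear x + (m : ℕ) • (ρ g 0) = x} =
      {x : Fin 8 → ℤ | InZ m x ∧ (mat g).mulVec x = x} := by
    intro g m
    ext x
    simp only [Set.mem_setOf_eq]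
    rw [hmem m x, hρ0, smul_zero, add_zero, hρl]
  have hcount := count_one tPair tW tV tAlg1 tIncl tFib tAlg2
  obtain ⟨X, hX, hA, hfix⟩ := hall 8 (QuaternionGroup 2) ρ S P rfl hint
    (by
      intro g x hx
      rw [hone] at hx ⊢
      exact hρN g 1 x hx)
    (fun i g => Hval i g)
    (formula tDet ρ hρm hset (caseAll hcount tSer1 tFixM tSer2 tFixI tSer3 tFixJ))
    (by
      intro i
      exact tRep i)
  have key : ∀ g : QuaternionGroup 2, ∑ i ∈ Finset.range 9, Hval i g =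
      ((Nat.card {x : X // g • x = x} : ℕ) : ℤ) := by
    intro g
    have := hfix g
    exact_mod_cast this
  have s2 : ∑ i ∈ Finset.range 9, Hval i (.a 2) = 64 := sum2
  have s1 : ∑ i ∈ Finset.range 9, Hval i (.a 1) = 16 := sum1
  have sj : ∑ i ∈ Finset.range 9, Hval i (.xa 0) = 64 := sumj
  have sk : ∑ i ∈ Finset.range 9, Hval i (.xa 1) = 64 := sumk
  have k2 := key (.a 2)
  have k1 := key (.a 1)
  have kj := key (.xa 0)
  have kk := key (.xa 1)
  rw [s2] at k2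
  rw [s1] at k1
  rw [sj] at kj
  rw [sk] at kk
  exact perm_contra X (by exact_mod_cast k2.symm) (by exact_mod_cast k1.symm)
    (by exact_mod_cast kj.symm) (by exact_mod_cast kk.symm)

end Pool.Agent.H972ST
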