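import Pool.Agent.H972ST.Stmts

/-!
# Task TFixI of the project H972-ST: fixed lattice points of `a 1` and `a 3`
-/

set_option autoImplicit false

namespace Pool.Agent.H99R3.STFixI

open Pool.Agent.H972ST Finset

lemma mulVec_MI (x : Fin 8 → ℤ) : MI.mulVec x = ![x 0, x 1, -x 2, -x 3,
    -x 0 - 2 * x 1 - x 4 - 2 * x 5, x 0 + x 1 + x 4 + x 5, x 1 + x 5 - x 7,
    x 0 + x 1 + x 4 + x 5 + x 6] := by
  ext i
  fin_cases i <;> simp [MI, Matrix.mulVec, dotProduct, Fin.sum_univ_eight] <;> ring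

/-- parametrisation of the fixed points -/
def g (p : ℤ × ℤ) : Fin 8 → ℤ :=
  ![2 * p.1, 2 * p.2, 0, 0, -2 * p.1 - 2 * p.2, p.1, p.2, p.1 + p.2]

lemma g_inj : Function.Injective g := by
  intro p q h
  have h5 := congrFun h 5
  have h6 := congrFun h 6
  exact Prod.ext h5 h6

lemma fixed_of {x : Fin 8 → ℤ} (h2 : x 2 = 0) (h3 : x 3 = 0) (h4 : x 4 = -x 0 - x 1)
    (h5 : 2 * x 5 = x 0) (h6 : 2 * x 6 = x 1) (h7 : 2 * x 7 = x 0 + x 1) :
    x = g (x 5, x 6) := by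
  ext i
  fin_cases i
  · show x 0 = 2 * x 5; omega
  · show x 1 = 2 * x 6; omega
  · show x 2 = 0; omega
  · show x 3 = 0; omega
  · show x 4 = -2 * x 5 - 2 * x 6; omega
  · rfl
  · rfl
  · show x 7 = x 5 + x 6; omega

lemma fix1 (x : Fin 8 → ℤ) : MI.mulVec x = x ↔ ∃ p, x = g p := by
  constructor
  · intro h
    rw [mulVec_MI] at h
    have h2 : -x 2 = x 2 := congrFun h 2
    have h3 : -x 3 = x 3 := congrFun h 3
    have h4 : -x 0 - 2 * x 1 - x 4 - 2 * x 5 = x 4 := congrFun h 4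
    have h5 : x 0 + x 1 + x 4 + x 5 = x 5 := congrFun h 5
    have h6 : x 1 + x 5 - x 7 = x 6 := congrFun h 6
    have h7 : x 0 + x 1 + x 4 + x 5 + x 6 = x 7 := congrFun h 7
    exact ⟨_, fixed_of (by omega) (by omega) (by omega) (by omega) (by omega) (by omega)⟩
  · rintro ⟨p, rfl⟩
    rw [mulVec_MI]
    ext i
    fin_cases i <;> simp [g] <;> ring

lemma fix3 (x : Fin 8 → ℤ) : (MI ^ 3).mulVec x = x ↔ ∃ p, x = g p := by
  have e : (MI ^ 3).mulVec x = MI.mulVec (MI.mulVec (MI.mulVec x)) := by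
    rw [Matrix.mulVec_mulVec, Matrix.mulVec_mulVec]
    congr 1
    rw [pow_succ, pow_two]
  constructor
  · intro h
    rw [e, mulVec_MI x, mulVec_MI, mulVec_MI] at h
    have h2 := congrFun h 2
    have h3 := congrFun h 3
    have h4 := congrFun h 4
    have h5 := congrFun h 5
    have h6 := congrFun h 6
    have h7 := congrFun h 7
    simp at h2 h3 h4 h5 h6 h7
    exact ⟨_, fixed_of (by omega) (by omega) (by omega) (by omega) (by omega) (by omega)⟩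
  · intro h
    have h1 := (fix1 x).2 h
    rw [e, h1, h1, h1]

lemma inZ_g (m : ℕ) (p : ℤ × ℤ) : InZ m (g p) ↔ |p.1| + |p.2| ≤ ((m / 2 : ℕ) : ℤ) := by
  have y1g : y1 (g p) = 0 := by
    show -2 * p.1 - 2 * p.2 + 2 * p.1 + 2 * p.2 = 0; ring
  have y2g : y2 (g p) = 0 := by
    show -2 * p.1 - 2 * p.2 + 2 * p.1 + 2 * p.2 = 0; ring
  have y3g : y3 (g p) = 0 := by
    show -2 * p.1 - 2 * p.2 + 2 * p.2 + 2 * p.1 = 0; ring
  have y4g : y4 (g p) = 0 := by
    show -2 * p.1 - 2 * p.2 + 2 * (p.1 + p.2) = 0; ring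
  have g0 : |(g p) 0| = 2 * |p.1| := by
    show |2 * p.1| = _
    rw [abs_mul]; rfl
  have g1 : |(g p) 1| = 2 * |p.2| := by
    show |2 * p.2| = _
    rw [abs_mul]; rfl
  have g2 : |(g p) 2| = 0 := by
    show |(0 : ℤ)| = _
    rw [abs_zero]
  have g3 : |(g p) 3| = 0 := by
    show |(0 : ℤ)| = _
    rw [abs_zero]
  have a0 := abs_nonneg p.1
  have b0 := abs_nonneg p.2
  unfold InZ
  rw [y1g, y2g, y3g, y4g, g0, g1, g2, g3, abs_zero]
  constructor
  · intro h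
    omega
  · intro h
    refine ⟨?_, ?_, ?_, ?_, ?_, ?_, ?_⟩ <;> omega

/-- the diamond -/
noncomputable def dia (s : ℕ) : Finset (ℤ × ℤ) :=
  (Icc (-(s : ℤ)) s ×ˢ Icc (-(s : ℤ)) s).filter fun p => |p.1| + |p.2| ≤ (s : ℤ)

lemma mem_dia (s : ℕ) (p : ℤ × ℤ) : p ∈ dia s ↔ |p.1| + |p.2| ≤ (s : ℤ) := by
  unfold dia
  rw [mem_filter, mem_product, mem_Icc, mem_Icc]
  constructor
  · rintro ⟨-, h⟩
    exact h
  · intro h
    have a0 := abs_nonneg p.1
    have b0 := abs_nonneg p.2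
    have a1 := abs_le.1 (by linarith : |p.1| ≤ (s : ℤ))
    have b1 := abs_le.1 (by linarith : |p.2| ≤ (s : ℤ))
    exact ⟨⟨a1, b1⟩, h⟩

lemma sum_dia (s : ℕ) : ∑ u ∈ Icc (-(s : ℤ)) s, (2 * ((s : ℤ) - |u|) + 1) =
    2 * (s : ℤ) ^ 2 + 2 * s + 1 := by
  induction s with
  | zero => simp
  | succ s ih =>
    have e : Icc (-((s + 1 : ℕ) : ℤ)) ((s + 1 : ℕ) : ℤ) =
        insert (-((s : ℤ) + 1)) (insert ((s : ℤ) + 1) (Icc (-(s : ℤ)) s)) := by
      ext x
      simp only [mem_Icc, mem_insert]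
      push_cast
      omega
    rw [e, sum_insert (by simp only [mem_insert, mem_Icc]; omega),
      sum_insert (by simp only [mem_Icc]; omega)]
    have e2 : ∑ u ∈ Icc (-(s : ℤ)) s, (2 * (((s + 1 : ℕ) : ℤ) - |u|) + 1) =
        ∑ u ∈ Icc (-(s : ℤ)) s, ((2 * ((s : ℤ) - |u|) + 1) + 2) := by
      refine sum_congr rfl (fun u _ => ?_)
      push_cast
      ring
    rw [e2, sum_add_distrib, ih, sum_const, Int.card_Icc, abs_neg,
      abs_of_nonneg (by omega : (0 : ℤ) ≤ (s : ℤ) + 1)]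
    have e3 : ((s : ℤ) + 1 - -(s : ℤ)).toNat = 2 * s + 1 := by omega
    rw [e3]
    push_cast
    simp
    ring

lemma card_dia (s : ℕ) : (dia s).card = 2 * s ^ 2 + 2 * s + 1 := by
  have h1 : (dia s).card = ∑ u ∈ Icc (-(s : ℤ)) s,
      ((Icc (-(s : ℤ)) s).filter fun v => |u| + |v| ≤ (s : ℤ)).card := by
    unfold dia
    rw [card_filter, sum_product]
    refine sum_congr rfl (fun u _ => ?_)
    rw [card_filter]
  have h2 : ∀ u ∈ Icc (-(s : ℤ)) s,
      ((((Icc (-(s : ℤ)) s).filter fun v => |u| + |v| ≤ (s : ℤ)).card : ℕ) : ℤ) =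
        2 * ((s : ℤ) - |u|) + 1 := by
    intro u hu
    rw [mem_Icc] at hu
    have hu' : |u| ≤ (s : ℤ) := abs_le.2 hu
    have e : (Icc (-(s : ℤ)) s).filter (fun v => |u| + |v| ≤ (s : ℤ)) =
        Icc (-((s : ℤ) - |u|)) ((s : ℤ) - |u|) := by
      ext v
      rw [mem_filter, mem_Icc, mem_Icc]
      have hv : |u| + |v| ≤ (s : ℤ) ↔ (-((s : ℤ) - |u|) ≤ v ∧ v ≤ (s : ℤ) - |u|) := by
        rw [← abs_le]
        omega
      rw [hv]
      have := abs_nonneg u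
      omega
    rw [e, Int.card_Icc]
    omega
  have h3 : (((dia s).card : ℕ) : ℤ) = 2 * (s : ℤ) ^ 2 + 2 * s + 1 := by
    rw [h1, ← sum_dia]
    push_cast
    exact sum_congr rfl h2
  exact_mod_cast h3

lemma count (m : ℕ) : {x : Fin 8 → ℤ | InZ m x ∧ ∃ p, x = g p}.ncard = E00 m := by
  have h : {x : Fin 8 → ℤ | InZ m x ∧ ∃ p, x = g p} = g '' (dia (m / 2) : Set (ℤ × ℤ)) := by
    ext x
    constructor
    · rintro ⟨h1, p, rfl⟩
      exact ⟨p, (mem_dia _ _).2 ((inZ_g m p).1 h1), rfl⟩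
    · rintro ⟨p, hp, rfl⟩
      exact ⟨(inZ_g m p).2 ((mem_dia _ _).1 hp), p, rfl⟩
  rw [h, Set.ncard_image_of_injective _ g_inj, Set.ncard_coe_finset, card_dia]
  rfl

theorem tFixI : Pool.Agent.H972ST.TFixI := by
  intro m
  have a1 : mat (.a 1) = MI := by
    show MI ^ (ZMod.val (1 : ZMod 4)) = MI
    rw [show ZMod.val (1 : ZMod 4) = 1 from rfl, pow_one]
  have a3 : mat (.a 3) = MI ^ 3 := rfl
  constructor
  · rw [a1]
    simp only [fix1]
    exact count m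
  · rw [a3]
    simp only [fix3]
    exact count m

end Pool.Agent.H99R3.STFixI
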