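import Pool.Agent.H972ST.Stmts

set_option autoImplicit false
open Pointwise

namespace Pool.Agent.H972ST.MemOwn

open Pool.Agent.H972ST

lemma inR_cast (m : ℤ) (x : Fin 8 → ℤ) : InR (m : ℝ) (fun k => (x k : ℝ)) ↔ InZ m x := by
  have e1 : r1 (fun k => (x k : ℝ)) = ((y1 x : ℤ) : ℝ) := by simp [r1, y1]
  have e2 : r2 (fun k => (x k : ℝ)) = ((y2 x : ℤ) : ℝ) := by simp [r2, y2]
  have e3 : r3 (fun k => (x k : ℝ)) = ((y3 x : ℤ) : ℝ) := by simp [r3, y3]
  have e4 : r4 (fun k => (x k : ℝ)) = ((y4 x : ℤ) : ℝ) := by simp [r4, y4]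
  unfold InR InZ
  rw [e1, e2, e3, e4]
  beta_reduce
  constructor
  · rintro ⟨h1, h2, h3, h4, h5, h6, h7⟩
    refine ⟨?_, ?_, ?_, ?_, ?_, ?_, ?_⟩
    · exact_mod_cast h1
    · exact_mod_cast h2
    · exact_mod_cast h3
    · exact_mod_cast h4
    · exact_mod_cast h5
    · exact_mod_cast h6
    · exact_mod_cast h7
  · rintro ⟨h1, h2, h3, h4, h5, h6, h7⟩
    refine ⟨?_, ?_, ?_, ?_, ?_, ?_, ?_⟩
    · exact_mod_cast h1
    · exact_mod_cast h2
    · exact_mod_cast h3
    · exact_mod_cast h4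
    · exact_mod_cast h5
    · exact_mod_cast h6
    · exact_mod_cast h7

lemma inR_scale (c m : ℝ) (hc : 0 < c) (x : Fin 8 → ℝ) : InR m x → InR (c * m) (c • x) := by
  have a : ∀ t : ℝ, |c * t| = c * |t| := fun t => by rw [abs_mul, abs_of_pos hc]
  have e1 : r1 (c • x) = c * r1 x := by simp [r1]; ring
  have e2 : r2 (c • x) = c * r2 x := by simp [r2]; ring
  have e3 : r3 (c • x) = c * r3 x := by simp [r3]; ring
  have e4 : r4 (c • x) = c * r4 x := by simp [r4]; ring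
  unfold InR
  rw [e1, e2, e3, e4]
  simp only [Pi.smul_apply, smul_eq_mul, a]
  rintro ⟨h1, h2, h3, h4, h5, h6, h7⟩
  refine ⟨?_, ?_, ?_, ?_, ?_, ?_, ?_⟩
  · nlinarith [mul_le_mul_of_nonneg_left h1 hc.le]
  · nlinarith [mul_le_mul_of_nonneg_left h2 hc.le]
  · nlinarith [mul_le_mul_of_nonneg_left h3 hc.le]
  · nlinarith [mul_le_mul_of_nonneg_left h4 hc.le]
  · nlinarith [mul_le_mul_of_nonneg_left h5 hc.le]
  · nlinarith [mul_le_mul_of_nonneg_left h6 hc.le]
  · nlinarith [mul_le_mul_of_nonneg_left h7 hc.le]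

lemma inR_smul_iff (m : ℝ) (hm : 0 < m) (x : Fin 8 → ℝ) : InR 1 (m⁻¹ • x) ↔ InR m x := by
  constructor
  · intro h
    have := inR_scale m 1 hm _ h
    rwa [mul_one, smul_smul, mul_inv_cancel₀ hm.ne', one_smul] at this
  · intro h
    have := inR_scale m⁻¹ m (inv_pos.mpr hm) _ h
    rwa [inv_mul_cancel₀ hm.ne'] at this

lemma inZ_zero (x : Fin 8 → ℤ) : InZ 0 x ↔ x = 0 := by
  constructor
  · rintro ⟨h1, h2, h3, h4, h5, h6, h7⟩
    have a0 := abs_nonneg (x 0)
    have a1 := abs_nonneg (x 1)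
    have a2 := abs_nonneg (x 2)
    have a3 := abs_nonneg (x 3)
    have b1 := abs_nonneg (y1 x)
    have b2 := abs_nonneg (y2 x)
    have b3 := abs_nonneg (y3 x)
    have b4 := abs_nonneg (y4 x)
    have z0 : x 0 = 0 := abs_eq_zero.mp (by linarith)
    have z1 : x 1 = 0 := abs_eq_zero.mp (by linarith)
    have z2 : x 2 = 0 := abs_eq_zero.mp (by linarith)
    have z3 : x 3 = 0 := abs_eq_zero.mp (by linarith)
    have w1 : y1 x = 0 := abs_eq_zero.mp (by linarith)
    have w2 : y2 x = 0 := abs_eq_zero.mp (by linarith)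
    have w3 : y3 x = 0 := abs_eq_zero.mp (by linarith)
    have w4 : y4 x = 0 := abs_eq_zero.mp (by linarith)
    unfold y1 at w1
    unfold y2 at w2
    unfold y3 at w3
    unfold y4 at w4
    have z4 : x 4 = 0 := by omega
    have z5 : x 5 = 0 := by omega
    have z6 : x 6 = 0 := by omega
    have z7 : x 7 = 0 := by omega
    funext k
    fin_cases k <;> simp [z0, z1, z2, z3, z4, z5, z6, z7]
  · rintro rfl
    unfold InZ y1 y2 y3 y4
    simp

theorem tMem : TMem := by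
  intro hP
  have h0 : InR 1 (0 : Fin 8 → ℝ) := by
    unfold InR r1 r2 r3 r4
    simp
  refine ⟨?_, ?_⟩
  · intro m x
    rcases Nat.eq_zero_or_pos m with rfl | hm
    · have hne : P.Nonempty := by rw [hP]; exact ⟨0, h0⟩
      have : ((0 : ℕ) : ℝ) • P = {0} := by
        rw [Nat.cast_zero]
        exact Set.zero_smul_set hne
      rw [this]
      have e : (((0 : ℕ) : ℤ)) = 0 := rfl
      rw [e, inZ_zero]
      constructor
      · intro h
        funext k
        have := congrFun h k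
        have h2 : ((x k : ℤ) : ℝ) = 0 := this
        exact_mod_cast h2
      · rintro rfl
        show (fun k => (((0 : Fin 8 → ℤ) k : ℤ) : ℝ)) = 0
        funext k
        simp
    · have hm' : (0 : ℝ) < (m : ℝ) := by exact_mod_cast hm
      rw [Set.mem_smul_set_iff_inv_smul_mem₀ hm'.ne', hP]
      show InR 1 _ ↔ _
      rw [inR_smul_iff _ hm']
      have := inR_cast (m : ℤ) x
      rw [← this]
      simp
  · have o1 : IsOpen {x : Fin 8 → ℝ | |x 0| + |x 1| + |x 2| + |x 3| < 1} :=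
      isOpen_lt (by fun_prop) continuous_const
    have o2 : IsOpen {x : Fin 8 → ℝ | |r1 x| + |r4 x| + |x 2| + |x 3| < 1} :=
      isOpen_lt (by unfold r1 r4; fun_prop) continuous_const
    have o3 : IsOpen {x : Fin 8 → ℝ | |r2 x| + |r3 x| + |x 2| + |x 3| < 1} :=
      isOpen_lt (by unfold r2 r3; fun_prop) continuous_const
    have o4 : IsOpen {x : Fin 8 → ℝ | |x 0| + |r1 x| + |r2 x| + 2 * (|x 2| + |x 3|) < 2 * 1} :=
      isOpen_lt (by unfold r1 r2; fun_prop) continuous_const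
    have o5 : IsOpen {x : Fin 8 → ℝ | |x 0| + |r3 x| + |r4 x| + 2 * (|x 2| + |x 3|) < 2 * 1} :=
      isOpen_lt (by unfold r3 r4; fun_prop) continuous_const
    have o6 : IsOpen {x : Fin 8 → ℝ | |x 1| + |r1 x| + |r3 x| + 2 * (|x 2| + |x 3|) < 2 * 1} :=
      isOpen_lt (by unfold r1 r3; fun_prop) continuous_const
    have o7 : IsOpen {x : Fin 8 → ℝ | |x 1| + |r2 x| + |r4 x| + 2 * (|x 2| + |x 3|) < 2 * 1} :=
      isOpen_lt (by unfold r2 r4; fun_prop) continuous_const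
    have hopen := o1.inter (o2.inter (o3.inter (o4.inter (o5.inter (o6.inter o7)))))
    refine ⟨0, interior_maximal ?_ hopen ?_⟩
    · rintro x ⟨h1, h2, h3, h4, h5, h6, h7⟩
      rw [hP]
      exact ⟨le_of_lt h1, le_of_lt h2, le_of_lt h3, le_of_lt h4, le_of_lt h5, le_of_lt h6, le_of_lt h7⟩
    · refine ⟨?_, ?_, ?_, ?_, ?_, ?_, ?_⟩ <;>
      · simp [r1, r2, r3, r4]

end Pool.Agent.H972ST.MemOwn
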